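import Pool.Agent.Y152.EF.Sheets
import Pool.Agent.Helper962.F8
import Pool.Agent.Helper962.R2

/-!
# No analytic isometric immersions of a neighbourhood of a saddle of the conformal factor
-/

set_option autoImplicit false

namespace Pool.Agent.Y152.EF

open Set Filter Topology Pool.Agent.Helper962.Flat
open scoped RealInnerProductSpace

/-- pairs of real numbers as complex numbers -/
noncomputable abbrev toV : ℂ ≃L[ℝ] V := Complex.equivRealProdCLM

/-- pairs of real numbers as complex numbers -/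
noncomputable abbrev toC : V →L[ℝ] ℂ := (Complex.equivRealProdCLM.symm : V ≃L[ℝ] ℂ)

lemma toV_apply (w : ℂ) : toV w = (w.re, w.im) := rfl

lemma toC_apply (q : V) : toC q = ⟨q.1, q.2⟩ := by
  have h : toV (⟨q.1, q.2⟩ : ℂ) = q := rfl
  change (Complex.equivRealProdCLM.symm : V ≃L[ℝ] ℂ) q = _
  rw [ContinuousLinearEquiv.symm_apply_eq]
  exact h.symm

lemma dot_conf (m : ℂ) (u v : V) :
    dot (toV (m * toC u)) (toV (m * toC v)) = ‖m‖ ^ 2 * dot u v := by
  rw [toC_apply, toC_apply, toV_apply, toV_apply, Complex.sq_norm, Complex.normSq_apply]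
  simp only [dot, Complex.mul_re, Complex.mul_im]
  ring

lemma dot_smul (a : ℝ) (u v : V) : dot (a • u) (a • v) = a ^ 2 * dot u v := by
  simp only [dot, Prod.smul_fst, Prod.smul_snd, smul_eq_mul]
  ring

/-- the position in the plane of the sheets -/
noncomputable def ze (z : V) : ℂ := toC z + ⟨0, 1 / 8000⟩

lemma ze_re (z : V) : (ze z).re = z.1 := by
  rw [ze, toC_apply]
  simp

lemma ze_im (z : V) : (ze z).im = z.2 + 1 / 8000 := by
  rw [ze, toC_apply]
  simp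

lemma ze_T {z : V} (hz : z ∈ T) : ze z ∈ Tc := by
  obtain ⟨h1, h2, h3, h4⟩ := hz
  refine ⟨?_, ?_, ?_, ?_⟩ <;> simp only [ze_re, ze_im] <;> linarith

lemma ze_B {z : V} (hz : z ∈ B) : ze z ∈ Bc := by
  obtain ⟨h1, h2, h3, h4⟩ := hz
  refine ⟨?_, ?_, ?_, ?_⟩ <;> simp only [ze_re, ze_im] <;> linarith

lemma ze_S {a b : ℝ} {z : V} (hz : z ∈ S a b) : ze z ∈ Sc a b := by
  obtain ⟨h1, h2, h3, h4, h5⟩ := hz
  rcases h5 with h5 | h5 | ⟨h5, h6⟩
  · exact Or.inl (Or.inl (ze_T ⟨h1, h2, h5, h4⟩))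
  · exact Or.inl (Or.inr (ze_B ⟨h1, h2, h3, h5⟩))
  · refine Or.inr ⟨?_, ?_, ?_, ?_⟩ <;> simp only [ze_re, ze_im] <;> linarith

lemma isOpen_Sc (a b : ℝ) : IsOpen (Sc a b) :=
  ((isOpen_box _ _ _ _).union (isOpen_box _ _ _ _)).union (isOpen_box _ _ _ _)

lemma isOpen_S (a b : ℝ) : IsOpen (S a b) := by
  have h0 : Continuous fun p : V => p.1 := by fun_prop
  have h1 : Continuous fun p : V => p.2 := by fun_prop
  have h : S a b = ({p : V | -12 < p.1} ∩ {p | p.1 < 12} ∩ {p | -1 < p.2} ∩ {p | p.2 < 1}) ∩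
      ({p | 0 < p.2} ∪ ({p | p.2 < -(1 / 4000)} ∪ ({p | a < p.1} ∩ {p | p.1 < b}))) := by
    ext p
    simp only [S, mem_ofPred_eq, mem_inter_iff, mem_union]
    tauto
  rw [h]
  exact ((((isOpen_lt continuous_const h0).inter (isOpen_lt h0 continuous_const)).inter
    (isOpen_lt continuous_const h1)).inter (isOpen_lt h1 continuous_const)).inter
    ((isOpen_lt continuous_const h1).union ((isOpen_lt h1 continuous_const).union
      ((isOpen_lt continuous_const h0).inter (isOpen_lt h0 continuous_const))))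

/-- the sheet in the domain -/
noncomputable def sg (p : V) (k : ℝ) (s : ℂ → ℂ) (z : V) : V := p + k⁻¹ • toV (s (ze z))

lemma ze_hasFDerivAt (z : V) : HasFDerivAt ze toC z := by
  unfold ze
  exact (toC.hasFDerivAt).add_const _

lemma sg_hasFDerivAt {p : V} {k : ℝ} {s : ℂ → ℂ} {z : V} {m : ℂ} (h : HasDerivAt s m (ze z)) :
    HasFDerivAt (sg p k s) (k⁻¹ • ((toV : ℂ →L[ℝ] V).comp (m • toC))) z := by
  have h1 : HasFDerivAt (fun z => s (ze z)) (m • toC) z := h.comp_hasFDerivAt z (ze_hasFDerivAt z)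
  have h2 : HasFDerivAt (fun z => toV (s (ze z))) ((toV : ℂ →L[ℝ] V).comp (m • toC)) z :=
    (toV : ℂ →L[ℝ] V).hasFDerivAt.comp z h1
  exact (h2.const_smul k⁻¹).const_add p

lemma sg_contDiffAt {p : V} {k : ℝ} {s : ℂ → ℂ} {U : Set ℂ} (hU : IsOpen U) (hs : Branch s U)
    {z : V} (hz : ze z ∈ U) : ContDiffAt ℝ 1 (sg p k s) z := by
  have h1 : AnalyticAt ℂ s (ze z) := by
    have hd : DifferentiableOn ℂ s U := fun w hw =>
      (sec_deriv FF_hasDerivAt dF_ne hU hs.1 hs.2.1 hw).differentiableAt.differentiableWithinAt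
    exact hd.analyticAt (hU.mem_nhds hz)
  have h2 : ContDiffAt ℝ 1 s (ze z) := (h1.contDiffAt (n := 1)).restrict_scalars ℝ
  have h3 : ContDiff ℝ 1 ze := toC.contDiff.add contDiff_const
  have h4 : ContDiffAt ℝ 1 (fun z => s (ze z)) z := h2.comp z h3.contDiffAt
  have h5 : ContDiffAt ℝ 1 (fun z => toV (s (ze z))) z :=
    (toV : ℂ →L[ℝ] V).contDiff.contDiffAt.comp z h4
  exact contDiffAt_const.add (h5.const_smul k⁻¹)

/-- the conformal factor -/
noncomputable def fac (p : V) (k : ℝ) (q : V) : ℝ :=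
  Real.exp (2 * k ^ 2 * ((q.2 - p.2) ^ 2 - (q.1 - p.1) ^ 2))

lemma fac_sg {p : V} {k : ℝ} (hk : 0 < k) (s : ℂ → ℂ) (z : V) :
    cst ^ 2 * fac p k (sg p k s z) = ‖dF (s (ze z))‖ ^ 2 := by
  rw [norm_dF, mul_pow, ← Real.exp_nat_mul, fac]
  congr 2
  simp only [sg, toV_apply, Prod.fst_add, Prod.snd_add, Prod.smul_fst, Prod.smul_snd, smul_eq_mul]
  push_cast
  field_simp
  ring

/-- the immersion of a sheet -/
noncomputable def im3 (p : V) (k : ℝ) (s : ℂ → ℂ) (r : V → E3) (z : V) : E3 :=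
  (cst * k) • r (sg p k s z)

section
variable {p : V} {k : ℝ} {s : ℂ → ℂ} {r : V → E3} {D : Set V} {a b : ℝ}

lemma im3_hasFDerivAt {U : Set ℂ} (hU : IsOpen U) (hs : Branch s U) {z : V} (hz : ze z ∈ U)
    (hr : DifferentiableAt ℝ r (sg p k s z)) :
    HasFDerivAt (im3 p k s r) ((cst * k) • (fderiv ℝ r (sg p k s z)).comp
      (k⁻¹ • ((toV : ℂ →L[ℝ] V).comp ((dF (s (ze z)))⁻¹ • toC)))) z :=
  (hr.hasFDerivAt.comp z (sg_hasFDerivAt
    (sec_deriv FF_hasDerivAt dF_ne hU hs.1 hs.2.1 hz))).const_smul (cst * k)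

lemma im3_iso (hk : 0 < k) {U : Set ℂ} (hU : IsOpen U) (hs : Branch s U) {z : V} (hz : ze z ∈ U)
    (hr : DifferentiableAt ℝ r (sg p k s z))
    (hiso : ∀ u v : V, ⟪fderiv ℝ r (sg p k s z) u, fderiv ℝ r (sg p k s z) v⟫ =
      fac p k (sg p k s z) * dot u v) (u v : V) :
    ⟪fderiv ℝ (im3 p k s r) z u, fderiv ℝ (im3 p k s r) z v⟫ = dot u v := by
  rw [(im3_hasFDerivAt hU hs hz hr).fderiv]
  simp only [ContinuousLinearMap.smul_apply, ContinuousLinearMap.comp_apply, smul_eq_mul]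
  rw [inner_smul_left, inner_smul_right, conj_trivial, hiso, dot_smul]
  have h1 : ∀ u : V, ((toV : ℂ →L[ℝ] V) ((dF (s (ze z)))⁻¹ * toC u)) =
      toV ((dF (s (ze z)))⁻¹ * toC u) := fun _ => rfl
  rw [h1, h1, dot_conf]
  have h2 := fac_sg (p := p) hk s z
  have h3 : ‖dF (s (ze z))‖ ≠ 0 := norm_ne_zero_iff.2 (dF_ne _)
  rw [norm_inv]
  have h4 : cst * k * (cst * k * (fac p k (sg p k s z) *
      (k⁻¹ ^ 2 * (‖dF (s (ze z))‖⁻¹ ^ 2 * dot u v)))) =
      (cst ^ 2 * fac p k (sg p k s z)) * ‖dF (s (ze z))‖⁻¹ ^ 2 * dot u v := by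
    field_simp
  rw [h4, h2, ← mul_pow, mul_inv_cancel₀ h3, one_pow, one_mul]

lemma im3_Iso (hk : 0 < k) (hD : IsOpen D) (hs : Branch s (Sc a b))
    (hmem : ∀ z ∈ S a b, sg p k s z ∈ D) (hr : ContDiffOn ℝ 1 r D)
    (hiso : ∀ q ∈ D, ∀ u v : V, ⟪fderiv ℝ r q u, fderiv ℝ r q v⟫ = fac p k q * dot u v)
    (han : ∀ q ∈ D, ∃ (O : Set E3) (f : E3 → ℝ), IsOpen O ∧ r q ∈ O ∧ AnalyticOnNhd ℝ f O ∧
      (∀ x ∈ O, fderiv ℝ f x ≠ 0) ∧ ∀ x ∈ O, x ∈ r '' D → f x = 0) :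
    Iso (im3 p k s r) (S a b) := by
  have hd : ∀ q ∈ D, DifferentiableAt ℝ r q := fun q hq =>
    (hr.differentiableOn (by simp)).differentiableAt (hD.mem_nhds hq)
  have hI : ∀ z ∈ S a b, ∀ u v : V, ⟪fderiv ℝ (im3 p k s r) z u, fderiv ℝ (im3 p k s r) z v⟫ =
      dot u v := fun z hz u v =>
    im3_iso hk (isOpen_Sc a b) hs (ze_S hz) (hd _ (hmem z hz)) (hiso _ (hmem z hz)) u v
  refine ⟨isOpen_S a b, fun z0 hz0 => ?_, fun z hz u v => hI z hz u v⟩
  have hS : ∀ᶠ z in 𝓝 z0, z ∈ S a b := (isOpen_S a b).mem_nhds hz0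
  obtain ⟨O, f, hO, hqO, hf, hf', hfS⟩ := han _ (hmem z0 hz0)
  have hck : cst * k ≠ 0 := (mul_pos cst_pos hk).ne'
  have hcd : ContDiffAt ℝ 1 (im3 p k s r) z0 := by
    have h1 : ContDiffAt ℝ 1 r (sg p k s z0) := hr.contDiffAt (hD.mem_nhds (hmem z0 hz0))
    exact (ContDiffAt.comp (g := r) (f := sg p k s) z0 h1
      (sg_contDiffAt (isOpen_Sc a b) hs (ze_S hz0))).const_smul (cst * k)
  have hinv : ∀ z, (cst * k)⁻¹ • im3 p k s r z = r (sg p k s z) := fun z => by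
    rw [im3, smul_smul, inv_mul_cancel₀ hck, one_smul]
  refine analytic_of_isometric (F := fun x => f ((cst * k)⁻¹ • x)) ?_ ?_ ?_ ?_ ?_ ?_
  · filter_upwards [hS] with z hz
    exact (im3_hasFDerivAt (isOpen_Sc a b) hs (ze_S hz) (hd _ (hmem z hz))).differentiableAt
  · exact (hcd.fderiv_right (m := 0) (by norm_num)).continuousAt
  · filter_upwards [hS] with z hz u v
    exact hI z hz u v
  · have h1 : AnalyticAt ℝ (fun x : E3 => (cst * k)⁻¹ • x) (im3 p k s r z0) :=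
      ((cst * k)⁻¹ • ContinuousLinearMap.id ℝ E3).analyticAt _
    exact AnalyticAt.comp (g := f) (f := fun x : E3 => (cst * k)⁻¹ • x)
      (by rw [hinv]; exact hf _ hqO) h1
  · intro h0
    apply hf' _ hqO
    have h2 : HasFDerivAt (fun x : E3 => (cst * k)⁻¹ • x)
        ((cst * k)⁻¹ • ContinuousLinearMap.id ℝ E3) (im3 p k s r z0) :=
      ((cst * k)⁻¹ • ContinuousLinearMap.id ℝ E3).hasFDerivAt
    have h3 : HasFDerivAt f (fderiv ℝ f (r (sg p k s z0))) ((cst * k)⁻¹ • im3 p k s r z0) := by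
      rw [hinv]
      exact (hf _ hqO).differentiableAt.hasFDerivAt
    have h4 := (h3.comp _ h2).fderiv
    have h5 : fderiv ℝ (fun x => f ((cst * k)⁻¹ • x)) (im3 p k s r z0) =
        (fderiv ℝ f (r (sg p k s z0))).comp ((cst * k)⁻¹ • ContinuousLinearMap.id ℝ E3) := h4
    rw [h5] at h0
    refine ContinuousLinearMap.ext fun v => ?_
    have h6 := congrArg (fun L : E3 →L[ℝ] ℝ => L ((cst * k) • v)) h0
    simp only [ContinuousLinearMap.comp_apply, ContinuousLinearMap.smul_apply,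
      ContinuousLinearMap.id_apply, smul_smul, inv_mul_cancel₀ hck, one_smul,
      ContinuousLinearMap.zero_apply] at h6
    exact h6
  · have hcont : ContinuousAt (fun z => r (sg p k s z)) z0 := by
      have h1 : ContinuousAt r (sg p k s z0) := (hd _ (hmem z0 hz0)).continuousAt
      exact ContinuousAt.comp (g := r) (f := sg p k s) h1
        (sg_contDiffAt (isOpen_Sc a b) hs (ze_S hz0)).continuousAt
    filter_upwards [hS, hcont.eventually_mem (hO.mem_nhds hqO)] with z hz hzO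
    rw [hinv]
    exact hfS _ hzO ⟨_, hmem z hz, rfl⟩

end

/-- There is no injective isometric immersion of a disc of radius `R / k` around `p` into Euclidean
space whose image lies locally in real-analytic surfaces. -/
theorem no_immersion : ∃ R : ℝ, 0 < R ∧ ∀ (p : V) (k : ℝ), 0 < k → ∀ D : Set V, IsOpen D →
    (∀ q, dist q p ≤ R / k → q ∈ D) → ∀ r : V → E3, ContDiffOn ℝ 1 r D →
    (∀ q ∈ D, ∀ u v : V, ⟪fderiv ℝ r q u, fderiv ℝ r q v⟫ = fac p k q * dot u v) → InjOn r D →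
    (∀ q ∈ D, ∃ (O : Set E3) (f : E3 → ℝ), IsOpen O ∧ r q ∈ O ∧ AnalyticOnNhd ℝ f O ∧
      (∀ x ∈ O, fderiv ℝ f x ≠ 0) ∧ ∀ x ∈ O, x ∈ r '' D → f x = 0) → False := by
  obtain ⟨sL, s0, sR, hL, h0, hR, hTL, hTR, hBL, hBR⟩ := exists_sheets
  obtain ⟨RL, hRL⟩ := hL.2.2
  obtain ⟨R0, hR0⟩ := h0.2.2
  obtain ⟨RR, hRR⟩ := hR.2.2
  refine ⟨max 1 (max RL (max R0 RR)), lt_max_of_lt_left one_pos, ?_⟩
  intro p k hk D hD hball r hr hiso hinj han
  set R := max 1 (max RL (max R0 RR)) with hRdef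
  have hmem : ∀ (s : ℂ → ℂ) (a b : ℝ), (∀ z ∈ Sc a b, ‖s z‖ ≤ R) →
      ∀ z ∈ S a b, sg p k s z ∈ D := by
    intro s a b hs z hz
    apply hball
    have h1 := hs _ (ze_S hz)
    have h2 : sg p k s z - p = k⁻¹ • toV (s (ze z)) := by
      rw [sg, add_sub_cancel_left]
    rw [dist_eq_norm, h2, norm_smul, Real.norm_of_nonneg (inv_nonneg.2 hk.le), div_eq_inv_mul]
    refine mul_le_mul_of_nonneg_left ?_ (inv_nonneg.2 hk.le)
    rw [toV_apply, Prod.norm_def]
    refine max_le ?_ ?_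
    · exact (Complex.abs_re_le_norm _).trans h1
    · exact (Complex.abs_im_le_norm _).trans h1
  have mL := hmem sL _ _ fun z hz => (hRL z hz).trans
    ((le_max_left _ _).trans (le_max_right _ _))
  have m0 := hmem s0 _ _ fun z hz => (hR0 z hz).trans
    ((le_max_left _ _).trans ((le_max_right _ _).trans (le_max_right _ _)))
  have mR := hmem sR _ _ fun z hz => (hRR z hz).trans
    ((le_max_right _ _).trans ((le_max_right _ _).trans (le_max_right _ _)))
  have hck : cst * k ≠ 0 := (mul_pos cst_pos hk).ne'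
  have hne : ∀ (s s' : ℂ → ℂ) (z : V), sg p k s z ∈ D → sg p k s' z ∈ D → s (ze z) ≠ s' (ze z) →
      im3 p k s r z ≠ im3 p k s' r z := by
    intro s s' z h1 h2 h3 h4
    apply h3
    have h5 : r (sg p k s z) = r (sg p k s' z) := smul_right_injective _ hck h4
    have h6 := hinj h1 h2 h5
    have h7 : toV (s (ze z)) = toV (s' (ze z)) :=
      smul_right_injective _ (inv_ne_zero hk.ne') (add_left_cancel h6)
    exact toV.injective h7
  refine core (im3_Iso hk hD hL mL hr hiso han) (im3_Iso hk hD h0 m0 hr hiso han)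
    (im3_Iso hk hD hR mR hr hiso han) ?_ ?_ ?_ ?_
  · intro z hz
    simp only [im3, sg, hTL (ze_T hz)]
  · intro z hz
    simp only [im3, sg, hTR (ze_T hz)]
  · intro z hz
    exact hne _ _ z (m0 z (B_sub _ _ hz)) (mL z (B_sub _ _ hz)) (hBL _ (ze_B hz))
  · intro z hz
    exact hne _ _ z (m0 z (B_sub _ _ hz)) (mR z (B_sub _ _ hz)) (hBR _ (ze_B hz))

end Pool.Agent.Y152.EF
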