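import Mathlib

/-!
# The error function as an immersion of the plane

`FF w = 3/2 - c * ∫_w^∞ exp (-u^2) du` with `c = 3 / √π`: an entire function with the derivative
`c * exp (-w^2)` and the two finite asymptotic values `3/2` and `-3/2`; the modulus of the
derivative is at least the distance of `FF w` to these two values.
-/

set_option autoImplicit false

namespace Pool.Agent.Y152.EF

open MeasureTheory Set Filter Topology Complex

/-- the integral of `exp (-u^2)` over the half-line from `w` to the right -/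
noncomputable def tail (w : ℂ) : ℂ := ∫ s in Ioi (0 : ℝ), cexp (-(w + s) ^ 2)

lemma int_full (w : ℂ) : Integrable fun s : ℝ => cexp (-(w + s) ^ 2) := by
  have h := integrable_cexp_quadratic' (b := -1) (by simp) (-2 * w) (-w ^ 2)
  refine h.congr (Eventually.of_forall fun s => ?_)
  simp only
  congr 1
  ring

lemma full (w : ℂ) : ∫ s : ℝ, cexp (-(w + s) ^ 2) = ((Real.sqrt Real.pi : ℝ) : ℂ) := by
  have h := integral_cexp_quadratic (b := -1) (by simp) (-2 * w) (-w ^ 2)
  have h1 : (fun s : ℝ => cexp (-(w + s) ^ 2)) =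
      fun s : ℝ => cexp (-1 * (s : ℂ) ^ 2 + -2 * w * s + -w ^ 2) := by
    funext s
    congr 1
    ring
  rw [h1, h]
  have h2 : -w ^ 2 - (-2 * w) ^ 2 / (4 * -1) = 0 := by ring
  rw [h2, Complex.exp_zero, mul_one, neg_neg, div_one, Real.sqrt_eq_rpow,
    Complex.ofReal_cpow Real.pi_pos.le]
  norm_num

lemma tail_add (w : ℂ) : tail w + tail (-w) = ((Real.sqrt Real.pi : ℝ) : ℂ) := by
  have h1 : tail (-w) = ∫ s in Iic (0 : ℝ), cexp (-(w + s) ^ 2) := by
    have h := integral_comp_neg_Ioi (0 : ℝ) fun s : ℝ => cexp (-(w + s) ^ 2)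
    rw [neg_zero] at h
    rw [← h]
    unfold tail
    refine integral_congr_ae (Eventually.of_forall fun s => ?_)
    simp only
    congr 1
    push_cast
    ring
  rw [h1, add_comm, ← full w]
  exact intervalIntegral.integral_Iic_add_Ioi (int_full w).integrableOn (int_full w).integrableOn

lemma re_neg_sq (w : ℂ) : (-w ^ 2).re = w.im ^ 2 - w.re ^ 2 := by
  simp [sq]

lemma norm_exp_neg_sq (w : ℂ) : ‖cexp (-w ^ 2)‖ = Real.exp (w.im ^ 2 - w.re ^ 2) := by
  rw [Complex.norm_exp, re_neg_sq]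

lemma bound_aux {w : ℂ} {M s : ℝ} (hM : ‖w‖ ≤ M) (hs : 0 < s) :
    ‖cexp (-(w + s) ^ 2) * (-(2 * (w + s)))‖ ≤
      2 * (M + 1) * Real.exp (M ^ 2) *
        ‖cexp (-1 * (s : ℂ) ^ 2 + ((2 * M + 1 : ℝ) : ℂ) * s + 0)‖ := by
  have hM0 : 0 ≤ M := (norm_nonneg _).trans hM
  have h1 : ‖-(2 * (w + s))‖ ≤ 2 * ((M + 1) * Real.exp s) := by
    rw [norm_neg, norm_mul, Complex.norm_ofNat]
    have h2 : ‖w + (s : ℂ)‖ ≤ M + s := by
      refine (norm_add_le _ _).trans ?_
      rw [Complex.norm_real, Real.norm_of_nonneg hs.le]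
      linarith
    have h3 : 1 + s ≤ Real.exp s := by
      have := Real.add_one_le_exp s
      linarith
    have h4 : M + s ≤ (M + 1) * Real.exp s := by nlinarith
    linarith
  have h5 : ‖cexp (-(w + s) ^ 2)‖ ≤ Real.exp (M ^ 2) * Real.exp (-s ^ 2 + 2 * M * s) := by
    rw [norm_exp_neg_sq, ← Real.exp_add]
    apply Real.exp_le_exp.2
    simp only [add_re, add_im, ofReal_re, ofReal_im, add_zero]
    have h6 : |w.re| ≤ M := (Complex.abs_re_le_norm w).trans hM
    have h7 : |w.im| ≤ M := (Complex.abs_im_le_norm w).trans hM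
    have h8 : w.im ^ 2 ≤ M ^ 2 := sq_le_sq' (abs_le.1 h7).1 (abs_le.1 h7).2
    have h9 := (abs_le.1 h6).1
    nlinarith [sq_nonneg w.re]
  have h10 : ‖cexp (-1 * (s : ℂ) ^ 2 + ((2 * M + 1 : ℝ) : ℂ) * s + 0)‖ =
      Real.exp (-s ^ 2 + 2 * M * s) * Real.exp s := by
    rw [← Real.exp_add, Complex.norm_exp]
    congr 1
    have : (-1 * (s : ℂ) ^ 2 + ((2 * M + 1 : ℝ) : ℂ) * s + 0) =
        ((-s ^ 2 + 2 * M * s + s : ℝ) : ℂ) := by
      push_cast
      ring
    rw [this, Complex.ofReal_re]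
  rw [norm_mul, h10]
  calc ‖cexp (-(w + s) ^ 2)‖ * ‖-(2 * (w + s))‖
      ≤ (Real.exp (M ^ 2) * Real.exp (-s ^ 2 + 2 * M * s)) * (2 * ((M + 1) * Real.exp s)) := by
        gcongr
    _ = _ := by ring

lemma hasDerivAt_sq (s w : ℂ) :
    HasDerivAt (fun w : ℂ => cexp (-(w + s) ^ 2)) (cexp (-(w + s) ^ 2) * (-(2 * (w + s)))) w := by
  have h1 : HasDerivAt (fun w : ℂ => -(w + s) ^ 2) (-(2 * (w + s))) w := by
    have h0 : HasDerivAt (fun w : ℂ => w + s) 1 w := (hasDerivAt_id w).add_const s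
    have h2 := (h0.fun_pow 2).fun_neg
    simpa using h2
  exact h1.cexp

lemma tail_hasDerivAt (w : ℂ) : HasDerivAt tail (-cexp (-w ^ 2)) w := by
  set M : ℝ := ‖w‖ + 1 with hM
  have key := hasDerivAt_integral_of_dominated_loc_of_deriv_le
    (μ := volume.restrict (Ioi (0 : ℝ))) (F := fun (w : ℂ) (s : ℝ) => cexp (-(w + s) ^ 2))
    (F' := fun (w : ℂ) (s : ℝ) => cexp (-(w + s) ^ 2) * (-(2 * (w + s)))) (x₀ := w)
    (s := Metric.ball w 1)
    (bound := fun s : ℝ => 2 * (M + 1) * Real.exp (M ^ 2) *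
        ‖cexp (-1 * (s : ℂ) ^ 2 + ((2 * M + 1 : ℝ) : ℂ) * s + 0)‖)
    (Metric.ball_mem_nhds w one_pos)
    (Eventually.of_forall fun x => ((int_full x).integrableOn).aestronglyMeasurable)
    (int_full w).integrableOn ?_ ?_ ?_ ?_
  · obtain ⟨hint, hder⟩ := key
    have h1 : ∫ s in Ioi (0 : ℝ), cexp (-(w + s) ^ 2) * (-(2 * (w + s))) =
        0 - cexp (-(w + (0 : ℝ)) ^ 2) := by
      have hd : ∀ s : ℝ, HasDerivAt (fun s : ℝ => cexp (-(w + s) ^ 2))
          (cexp (-(w + s) ^ 2) * (-(2 * (w + s)))) s := by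
        intro s
        have h2 := (hasDerivAt_sq w (s : ℂ)).comp_ofReal
        have h3 : ∀ s : ℂ, -(s + w) ^ 2 = -(w + s) ^ 2 := fun s => by rw [add_comm]
        simp only [h3] at h2
        rw [add_comm (s : ℂ) w] at h2
        exact h2
      refine integral_Ioi_of_hasDerivAt_of_tendsto' (fun s _ => hd s) hint ?_
      exact tendsto_zero_of_hasDerivAt_of_integrableOn_Ioi (a := 0) (fun s _ => hd s) hint
        (int_full w).integrableOn
    rw [h1] at hder
    simp only [ofReal_zero, add_zero, zero_sub] at hder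
    exact hder
  · refine Continuous.aestronglyMeasurable ?_
    fun_prop
  · rw [ae_restrict_iff' measurableSet_Ioi]
    refine Eventually.of_forall fun s hs x hx => bound_aux ?_ hs
    have h2 : ‖x - w‖ < 1 := by
      rw [← dist_eq_norm]
      exact hx
    have h3 : ‖x‖ ≤ ‖x - w‖ + ‖w‖ := by
      have := norm_add_le (x - w) w
      simpa using this
    linarith
  · exact (((integrable_cexp_quadratic' (b := -1) (by simp) _ _).norm).const_mul _).integrableOn
  · exact Eventually.of_forall fun s x _ => hasDerivAt_sq s x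

lemma tail_norm {w : ℂ} (hw : 0 ≤ w.re) :
    ‖tail w‖ ≤ ‖cexp (-w ^ 2)‖ * (Real.sqrt Real.pi / 2) := by
  have h1 : ‖tail w‖ ≤ ∫ s in Ioi (0 : ℝ), ‖cexp (-(w + s) ^ 2)‖ := norm_integral_le_integral_norm _
  have h2 : ∫ s in Ioi (0 : ℝ), ‖cexp (-(w + s) ^ 2)‖ ≤
      ∫ s in Ioi (0 : ℝ), ‖cexp (-w ^ 2)‖ * Real.exp (-1 * s ^ 2) := by
    refine setIntegral_mono_on (int_full w).integrableOn.norm
      (((integrable_exp_neg_mul_sq one_pos).const_mul _).integrableOn) measurableSet_Ioi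
      fun s hs => ?_
    rw [norm_exp_neg_sq, norm_exp_neg_sq, ← Real.exp_add]
    apply Real.exp_le_exp.2
    simp only [add_re, add_im, ofReal_re, ofReal_im, add_zero]
    have hs' : 0 < s := hs
    nlinarith [mul_nonneg hw hs'.le]
  rw [integral_const_mul, integral_gaussian_Ioi, div_one] at h2
  exact h1.trans h2

/-- the constant `3 / √π` -/
noncomputable def cst : ℝ := 3 / Real.sqrt Real.pi

lemma sqrt_pi_pos : 0 < Real.sqrt Real.pi := Real.sqrt_pos.2 Real.pi_pos

lemma cst_pos : 0 < cst := div_pos (by norm_num) sqrt_pi_pos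

lemma cst_mul : cst * Real.sqrt Real.pi = 3 := div_mul_cancel₀ _ sqrt_pi_pos.ne'

/-- the immersion of the plane -/
noncomputable def FF (w : ℂ) : ℂ := 3 / 2 - cst * tail w

/-- its derivative -/
noncomputable def dF (w : ℂ) : ℂ := cst * cexp (-w ^ 2)

lemma FF_hasDerivAt (w : ℂ) : HasDerivAt FF (dF w) w := by
  have h := ((tail_hasDerivAt w).const_mul (cst : ℂ)).const_sub (3 / 2)
  have e : -((cst : ℂ) * -cexp (-w ^ 2)) = dF w := by
    unfold dF
    ring
  rw [e] at h
  exact h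

lemma dF_ne (w : ℂ) : dF w ≠ 0 :=
  mul_ne_zero (by exact_mod_cast cst_pos.ne') (Complex.exp_ne_zero _)

lemma norm_dF (w : ℂ) : ‖dF w‖ = cst * Real.exp (w.im ^ 2 - w.re ^ 2) := by
  rw [dF, norm_mul, norm_exp_neg_sq, Complex.norm_real, Real.norm_of_nonneg cst_pos.le]

lemma FF_neg (w : ℂ) : FF w + FF (-w) = 0 := by
  unfold FF
  have h := tail_add w
  have h1 : (cst : ℂ) * (Real.sqrt Real.pi : ℝ) = 3 := by exact_mod_cast cst_mul
  rw [← h] at h1
  linear_combination -h1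

lemma FF_zero : FF 0 = 0 := by
  have h := FF_neg 0
  rw [neg_zero] at h
  linear_combination (1 / 2) * h

lemma est0 {w : ℂ} (hw : 0 ≤ w.re) : ‖FF w - 3 / 2‖ ≤ ‖dF w‖ := by
  have h1 : FF w - 3 / 2 = -(cst * tail w) := by
    unfold FF
    ring
  have h4 : Real.sqrt Real.pi / 2 ≤ 1 := by
    have : Real.sqrt Real.pi ≤ 2 := by
      rw [Real.sqrt_le_left (by norm_num)]
      have := Real.pi_le_four
      linarith
    linarith
  rw [h1, norm_neg, norm_mul, dF, norm_mul]
  refine mul_le_mul_of_nonneg_left ((tail_norm hw).trans ?_) (norm_nonneg _)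
  exact mul_le_of_le_one_right (norm_nonneg _) h4

/-- the modulus of the derivative is at least the distance to the asymptotic values -/
lemma est {w : ℂ} {ρ : ℝ} (h1 : ρ ≤ ‖FF w - 3 / 2‖) (h2 : ρ ≤ ‖FF w + 3 / 2‖) : ρ ≤ ‖dF w‖ := by
  rcases le_total 0 w.re with h | h
  · exact h1.trans (est0 h)
  · have h3 : 0 ≤ (-w).re := by
      rw [Complex.neg_re]
      linarith
    have h4 := est0 h3
    have h5 : FF (-w) - 3 / 2 = -(FF w + 3 / 2) := by
      linear_combination FF_neg w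
    have h6 : dF (-w) = dF w := by
      unfold dF
      rw [neg_sq]
    rw [h5, norm_neg, h6] at h4
    exact h2.trans h4

lemma tail_real (x : ℝ) : ∃ τ : ℝ, 0 ≤ τ ∧ tail x = τ := by
  refine ⟨∫ s in Ioi (0 : ℝ), Real.exp (-(x + s) ^ 2), ?_, ?_⟩
  · exact setIntegral_nonneg measurableSet_Ioi fun s _ => (Real.exp_pos _).le
  · have h := integral_ofReal (𝕜 := ℂ) (μ := volume.restrict (Ioi (0 : ℝ)))
      (f := fun s : ℝ => Real.exp (-(x + s) ^ 2))
    refine Eq.trans ?_ h
    refine integral_congr_ae (Eventually.of_forall fun s => ?_)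
    change cexp (-((x : ℂ) + s) ^ 2) = ((Real.exp (-(x + s) ^ 2) : ℝ) : ℂ)
    push_cast
    rfl

lemma FF_real (x : ℝ) : (FF x).im = 0 ∧ |(FF x).re| ≤ 3 / 2 := by
  obtain ⟨τ, h0, h1⟩ := tail_real x
  obtain ⟨τ', h0', h1'⟩ := tail_real (-x)
  have h2 : τ + τ' = Real.sqrt Real.pi := by
    have h3 := tail_add (x : ℂ)
    rw [← Complex.ofReal_neg, h1, h1'] at h3
    exact_mod_cast h3
  have h4 : FF x = ((3 / 2 - cst * τ : ℝ) : ℂ) := by
    rw [FF, h1]
    push_cast
    ring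
  rw [h4]
  refine ⟨Complex.ofReal_im _, ?_⟩
  rw [Complex.ofReal_re, abs_le]
  have h5 : 0 ≤ cst * τ := mul_nonneg cst_pos.le h0
  have h6 : 0 ≤ cst * τ' := mul_nonneg cst_pos.le h0'
  have h7 : cst * τ + cst * τ' = 3 := by
    rw [← mul_add, h2, cst_mul]
  constructor <;> linarith

end Pool.Agent.Y152.EF
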