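import Mathlib

/-!
# Sections of an entire function without critical points over convex sets

If the modulus of the derivative is bounded from below on the preimage of a convex open set, then
every preimage of a point of the set extends to a continuous section over the set.
-/

set_option autoImplicit false

namespace Pool.Agent.Y152.EF

open Set Filter Topology
open scoped unitInterval

variable {F G : ℂ → ℂ}

lemma isLocalHomeo (hF : ∀ w, HasDerivAt F (G w) w) (hG : ∀ w, G w ≠ 0) :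
    IsLocalHomeomorph F := by
  have hd : Differentiable ℂ F := fun w => (hF w).differentiableAt
  have hc : ContDiff ℂ 1 F := hd.contDiff
  intro w
  have hs : HasStrictDerivAt F (G w) w := hc.contDiffAt.hasStrictDerivAt' (hF w) (by norm_num)
  have he := hs.hasStrictFDerivAt_equiv (hG w)
  refine ⟨he.toOpenPartialHomeomorph F, he.mem_toOpenPartialHomeomorph_source, ?_⟩
  rw [he.toOpenPartialHomeomorph_coe]

lemma exists_unif (hF : IsLocalHomeomorph F) (R : ℝ) :
    ∃ δ : ℝ, 0 < δ ∧ ∀ w ∈ Metric.closedBall (0 : ℂ) R, ∃ sg : ℂ → ℂ, sg (F w) = w ∧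
      ContinuousOn sg (Metric.ball (F w) δ) ∧ ∀ z ∈ Metric.ball (F w) δ, F (sg z) = z := by
  refine (isCompact_closedBall (0 : ℂ) R).induction_on (p := fun s => ∃ δ : ℝ, 0 < δ ∧
    ∀ w ∈ s, ∃ sg : ℂ → ℂ, sg (F w) = w ∧ ContinuousOn sg (Metric.ball (F w) δ) ∧
      ∀ z ∈ Metric.ball (F w) δ, F (sg z) = z) ?_ ?_ ?_ ?_
  · exact ⟨1, one_pos, fun w hw => absurd hw (notMem_empty w)⟩
  · rintro s t hst ⟨δ, hδ, h⟩
    exact ⟨δ, hδ, fun w hw => h w (hst hw)⟩
  · rintro s t ⟨δ, hδ, h⟩ ⟨δ', hδ', h'⟩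
    refine ⟨min δ δ', lt_min hδ hδ', fun w hw => ?_⟩
    rcases hw with hw | hw
    · obtain ⟨sg, h1, h2, h3⟩ := h w hw
      have hsub := Metric.ball_subset_ball (x := F w) (min_le_left δ δ')
      exact ⟨sg, h1, h2.mono hsub, fun z hz => h3 z (hsub hz)⟩
    · obtain ⟨sg, h1, h2, h3⟩ := h' w hw
      have hsub := Metric.ball_subset_ball (x := F w) (min_le_right δ δ')
      exact ⟨sg, h1, h2.mono hsub, fun z hz => h3 z (hsub hz)⟩
  · intro w _
    obtain ⟨e, hwe, he⟩ := hF w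
    have htar : e.target ∈ 𝓝 (F w) := by
      rw [he]
      exact e.open_target.mem_nhds (e.map_source hwe)
    obtain ⟨δ, hδ, hball⟩ := Metric.mem_nhds_iff.1 htar
    have hcont : ContinuousAt F w := hF.continuous.continuousAt
    have hN : e.source ∩ F ⁻¹' (Metric.ball (F w) (δ / 2)) ∈ 𝓝 w :=
      Filter.inter_mem (e.open_source.mem_nhds hwe)
        (hcont.preimage_mem_nhds (Metric.ball_mem_nhds _ (by positivity)))
    refine ⟨_, mem_nhdsWithin_of_mem_nhds hN, δ / 2, by positivity, fun w' hw' => ?_⟩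
    obtain ⟨h1, h2⟩ := hw'
    have hsub : Metric.ball (F w') (δ / 2) ⊆ e.target := by
      refine Subset.trans (fun z hz => ?_) hball
      rw [Metric.mem_ball] at hz ⊢
      have h3 : dist (F w') (F w) < δ / 2 := h2
      have := dist_triangle z (F w') (F w)
      linarith
    refine ⟨e.symm, ?_, e.continuousOn_symm.mono hsub, fun z hz => ?_⟩
    · rw [he]
      exact e.left_inv h1
    · rw [he]
      exact e.right_inv (hsub hz)

lemma sec_deriv (hF : ∀ w, HasDerivAt F (G w) w) (hG : ∀ w, G w ≠ 0) {U : Set ℂ} (hU : IsOpen U)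
    {s : ℂ → ℂ} (hs : ContinuousOn s U) (h : ∀ z ∈ U, F (s z) = z) {z : ℂ} (hz : z ∈ U) :
    HasDerivAt s (G (s z))⁻¹ z :=
  HasDerivAt.of_local_left_inverse (hs.continuousAt (hU.mem_nhds hz)) (hF _) (hG _)
    (by filter_upwards [hU.mem_nhds hz] with y hy using h y hy)

lemma sec_unique (hF : IsLocalHomeomorph F) {U : Set ℂ} (hU : IsPreconnected U) {s s' : ℂ → ℂ}
    (hs : ContinuousOn s U) (h : ∀ z ∈ U, F (s z) = z) (hs' : ContinuousOn s' U)
    (h' : ∀ z ∈ U, F (s' z) = z) {a : ℂ} (ha : a ∈ U) (hsa : s a = s' a) : EqOn s s' U :=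
  (T2Space.isSeparatedMap F).eqOn_of_comp_eqOn hF.isLocallyInjective hU hs hs'
    (fun z hz => by simp only [Function.comp_apply, h z hz, h' z hz]) ha hsa

lemma line_lift (hF : ∀ w, HasDerivAt F (G w) w) (hG : ∀ w, G w ≠ 0) {z0 z1 w0 : ℂ}
    (h0 : F w0 = z0) {ρ : ℝ} (hρ : 0 < ρ)
    (hb : ∀ w, (∃ t ∈ Icc (0 : ℝ) 1, F w = z0 + t * (z1 - z0)) → ρ ≤ ‖G w‖) :
    ∃ g : ℝ → ℂ, ContinuousOn g (Icc 0 1) ∧ g 0 = w0 ∧
      ∀ t ∈ Icc (0 : ℝ) 1, F (g t) = z0 + t * (z1 - z0) := by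
  have hloc := isLocalHomeo hF hG
  set L : ℝ := ‖z1 - z0‖ with hL
  have hL0 : 0 ≤ L := norm_nonneg _
  obtain ⟨δ, hδ, hunif⟩ := exists_unif hloc (‖w0‖ + L / ρ)
  obtain ⟨n, hn⟩ := exists_nat_gt (L / δ)
  have hn0 : (0 : ℝ) < n := (div_nonneg hL0 hδ.le).trans_lt hn
  have hLn : L / n < δ := by
    rw [div_lt_iff₀ hδ] at hn
    rw [div_lt_iff₀ hn0]
    linarith
  set γ : ℝ → ℂ := fun t => z0 + t * (z1 - z0) with hγ
  have hγc : Continuous γ := by fun_prop
  have hγd : ∀ t, HasDerivAt γ (z1 - z0) t := by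
    intro t
    have h1 : HasDerivAt (fun t : ℝ => (t : ℂ)) 1 t := Complex.ofRealCLM.hasDerivAt
    have h2 := (h1.mul_const (z1 - z0)).const_add z0
    rw [one_mul] at h2
    exact h2
  have key : ∀ k : ℕ, k ≤ n → ∃ g : ℝ → ℂ, ContinuousOn g (Icc 0 (k / n)) ∧ g 0 = w0 ∧
      (∀ t ∈ Icc (0 : ℝ) (k / n), F (g t) = γ t) ∧ ‖g (k / n) - w0‖ ≤ L / ρ * (k / n) := by
    intro k
    induction k with
    | zero =>
      intro _
      refine ⟨fun _ => w0, continuousOn_const, rfl, fun t ht => ?_, by simp⟩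
      have ht0 : t = 0 := by
        have h1 := ht.2
        simp only [Nat.cast_zero, zero_div] at h1
        exact le_antisymm h1 ht.1
      rw [ht0, h0]
      simp [hγ]
    | succ k ih =>
      intro hk
      obtain ⟨g, hgc, hg0, hgF, hgb⟩ := ih (Nat.le_of_succ_le hk)
      set a : ℝ := k / n with ha
      set b : ℝ := ((k + 1 : ℕ) : ℝ) / n with hb'
      have ha0 : 0 ≤ a := by positivity
      have hab : b = a + 1 / n := by
        rw [ha, hb']
        push_cast
        ring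
      have hab' : a < b := by
        rw [hab]
        have : 0 < 1 / (n : ℝ) := by positivity
        linarith
      have hb1 : b ≤ 1 := by
        rw [hb', div_le_one hn0]
        exact_mod_cast hk
      have hwk : g a ∈ Metric.closedBall (0 : ℂ) (‖w0‖ + L / ρ) := by
        rw [mem_closedBall_zero_iff]
        have h1 : ‖g a‖ ≤ ‖g a - w0‖ + ‖w0‖ := by
          have := norm_add_le (g a - w0) w0
          simpa using this
        have h2 : L / ρ * a ≤ L / ρ := by
          apply mul_le_of_le_one_right (by positivity)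
          linarith
        linarith
      obtain ⟨sg, hsgw, hsgc, hsgF⟩ := hunif _ hwk
      have hFa : F (g a) = γ a := hgF a ⟨ha0, le_rfl⟩
      have hmem : ∀ t ∈ Icc a b, γ t ∈ Metric.ball (F (g a)) δ := by
        intro t ht
        rw [hFa, Metric.mem_ball, dist_eq_norm]
        have h1 : γ t - γ a = ((t - a : ℝ) : ℂ) * (z1 - z0) := by
          simp only [hγ]
          push_cast
          ring
        rw [h1, norm_mul, Complex.norm_real, Real.norm_of_nonneg (by linarith [ht.1])]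
        have h2 : t - a ≤ 1 / n := by linarith [ht.2]
        calc (t - a) * ‖z1 - z0‖ ≤ 1 / n * L := by gcongr
          _ = L / n := by ring
          _ < δ := hLn
      have hsgd : ∀ t ∈ Icc a b, HasDerivAt (fun t => sg (γ t)) ((G (sg (γ t)))⁻¹ * (z1 - z0)) t := by
        intro t ht
        exact (sec_deriv hF hG Metric.isOpen_ball hsgc hsgF (hmem t ht)).comp t (hγd t)
      have hbound : ∀ t ∈ Ico a b, ‖(G (sg (γ t)))⁻¹ * (z1 - z0)‖ ≤ L / ρ := by
        intro t ht
        have h1 : ρ ≤ ‖G (sg (γ t))‖ := hb _ ⟨t, ⟨ha0.trans ht.1, ht.2.le.trans hb1⟩,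
          hsgF _ (hmem t ⟨ht.1, ht.2.le⟩)⟩
        rw [norm_mul, norm_inv, ← hL, div_eq_inv_mul]
        gcongr
      have hsga : sg (γ a) = g a := by rw [← hFa, hsgw]
      have hmv := norm_image_sub_le_of_norm_deriv_le_segment' (f := fun t => sg (γ t))
        (fun t ht => (hsgd t ht).hasDerivWithinAt) hbound b ⟨hab'.le, le_rfl⟩
      refine ⟨fun t => if t ≤ a then g t else sg (γ t), ?_, ?_, ?_, ?_⟩
      · have hun : Icc (0 : ℝ) b = Icc 0 a ∪ Icc a b :=
          (Icc_union_Icc_eq_Icc ha0 hab'.le).symm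
        rw [hun]
        refine ContinuousOn.union_of_isClosed ?_ ?_ isClosed_Icc isClosed_Icc
        · refine hgc.congr fun t ht => ?_
          rw [if_pos ht.2]
        · have hc : ContinuousOn (fun t => sg (γ t)) (Icc a b) := fun t ht =>
            (hsgd t ht).continuousAt.continuousWithinAt
          refine hc.congr fun t ht => ?_
          by_cases h : t ≤ a
          · have h' : t = a := le_antisymm h ht.1
            change (if t ≤ a then g t else sg (γ t)) = sg (γ t)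
            rw [if_pos h, h', hsga]
          · rw [if_neg h]
      · simp only [if_pos ha0, hg0]
      · intro t ht
        by_cases h : t ≤ a
        · simp only [if_pos h]
          exact hgF t ⟨ht.1, h⟩
        · simp only [if_neg h]
          exact hsgF _ (hmem t ⟨(not_le.1 h).le, ht.2⟩)
      · simp only [if_neg (not_le.2 hab')]
        have h1 : ‖sg (γ b) - w0‖ ≤ ‖sg (γ b) - sg (γ a)‖ + ‖g a - w0‖ := by
          rw [hsga]
          exact norm_sub_le_norm_sub_add_norm_sub _ _ _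
        have h2 : L / ρ * (b - a) + L / ρ * a = L / ρ * b := by ring
        linarith
  obtain ⟨g, h1, h2, h3, -⟩ := key n le_rfl
  rw [div_self hn0.ne'] at h1 h3
  exact ⟨g, h1, h2, h3⟩

/-- sections over convex open sets -/
theorem exists_section (hF : ∀ w, HasDerivAt F (G w) w) (hG : ∀ w, G w ≠ 0) {C : Set ℂ}
    (hC : Convex ℝ C) {z0 w0 : ℂ} (hz : z0 ∈ C) (h0 : F w0 = z0) {ρ : ℝ}
    (hρ : 0 < ρ) (hb : ∀ w, F w ∈ C → ρ ≤ ‖G w‖) :
    ∃ s : ℂ → ℂ, s z0 = w0 ∧ ContinuousOn s C ∧ ∀ z ∈ C, F (s z) = z := by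
  classical
  have hloc := isLocalHomeo hF hG
  have hseg : ∀ z ∈ C, ∀ t ∈ Icc (0 : ℝ) 1, z0 + t * (z - z0) ∈ C := by
    intro z hz' t ht
    have h1 := hC hz hz' (by linarith [ht.2] : (0 : ℝ) ≤ 1 - t) ht.1 (by ring)
    have h2 : (1 - t) • z0 + t • z = z0 + t * (z - z0) := by
      simp only [Complex.real_smul]
      push_cast
      ring
    rwa [h2] at h1
  choose g hgc hg0 hgF using fun z : C => line_lift hF hG (z1 := (z : ℂ)) h0 hρ
    (fun w hw => by
      obtain ⟨t, ht, h1⟩ := hw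
      exact hb w (h1 ▸ hseg z z.2 t ht))
  let f : C(I × C, ℂ) := ⟨fun q => z0 + ((q.1 : ℝ) : ℂ) * ((q.2 : ℂ) - z0), by fun_prop⟩
  have hlift : Continuous fun q : I × C => g q.2 (q.1 : ℝ) := by
    refine hloc.continuous_lift (T2Space.isSeparatedMap F) f ?_ ?_ ?_
    · funext q
      exact hgF q.2 q.1 q.1.2
    · simp only [Set.Icc.coe_zero, hg0]
      exact continuous_const
    · intro z
      exact (hgc z).comp_continuous continuous_subtype_val fun t => t.2
  refine ⟨fun z => if h : z ∈ C then g ⟨z, h⟩ 1 else 0, ?_, ?_, ?_⟩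
  · simp only [dif_pos hz]
    have h1 : ∀ t ∈ Icc (0 : ℝ) 1, ∀ t' ∈ Icc (0 : ℝ) 1,
        F (g ⟨z0, hz⟩ t) = F (g ⟨z0, hz⟩ t') := by
      intro t ht t' ht'
      rw [hgF _ t ht, hgF _ t' ht']
      simp
    have h2 := (T2Space.isSeparatedMap F).constOn_of_comp hloc.isLocallyInjective isPreconnected_Icc
      (hgc ⟨z0, hz⟩) h1 (right_mem_Icc.2 zero_le_one) (left_mem_Icc.2 zero_le_one)
    rw [h2, hg0]
  · rw [continuousOn_iff_continuous_domRestrict]
    have h1 : C.domRestrict (fun z => if h : z ∈ C then g ⟨z, h⟩ 1 else 0) =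
        fun z : C => g z (((1 : I) : ℝ)) := by
      funext z
      simp [Set.domRestrict]
    rw [h1]
    exact hlift.comp (Continuous.prodMk_right (1 : I))
  · intro z hz'
    simp only [dif_pos hz']
    rw [hgF _ 1 (right_mem_Icc.2 zero_le_one)]
    push_cast
    ring

lemma sec_bound (hF : ∀ w, HasDerivAt F (G w) w) (hG : ∀ w, G w ≠ 0) {C : Set ℂ} (hC : Convex ℝ C)
    (hCo : IsOpen C) {s : ℂ → ℂ} (hs : ContinuousOn s C) (h : ∀ z ∈ C, F (s z) = z) {ρ : ℝ}
    (hρ : 0 < ρ) (hb : ∀ w, F w ∈ C → ρ ≤ ‖G w‖) {D : ℝ} (hD : ∀ z ∈ C, ‖z‖ ≤ D) :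
    ∃ R : ℝ, ∀ z ∈ C, ‖s z‖ ≤ R := by
  rcases C.eq_empty_or_nonempty with h0 | ⟨z0, hz0⟩
  · exact ⟨0, fun z hz => by
      rw [h0] at hz
      exact absurd hz (notMem_empty z)⟩
  refine ⟨‖s z0‖ + ρ⁻¹ * (D + D), fun z hz => ?_⟩
  have h1 := hC.norm_image_sub_le_of_norm_hasDerivWithin_le (f := s) (f' := fun z => (G (s z))⁻¹)
    (C := ρ⁻¹) (fun x hx => (sec_deriv hF hG hCo hs h hx).hasDerivWithinAt) (fun x hx => by
      rw [norm_inv]
      have := hb (s x) (by rw [h x hx]; exact hx)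
      gcongr) hz0 hz
  have h2 : ‖s z‖ ≤ ‖s z - s z0‖ + ‖s z0‖ := by
    have := norm_add_le (s z - s z0) (s z0)
    simpa using this
  have h3 : ‖z - z0‖ ≤ D + D := (norm_sub_le _ _).trans (add_le_add (hD z hz) (hD z0 hz0))
  have h4 : ρ⁻¹ * ‖z - z0‖ ≤ ρ⁻¹ * (D + D) := by gcongr
  linarith

/-- a continuous real function without zeros on a preconnected set has a constant sign -/
lemma sign_const {U : Set ℂ} (hU : IsPreconnected U) {f : ℂ → ℝ} (hf : ContinuousOn f U)
    (h0 : ∀ z ∈ U, f z ≠ 0) {a : ℂ} (ha : a ∈ U) (hfa : 0 < f a) : ∀ z ∈ U, 0 < f z := by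
  intro z hz
  by_contra hneg
  push Not at hneg
  have h1 : (0 : ℝ) ∈ f '' U := (hU.image f hf).ordConnected.out ⟨z, hz, rfl⟩ ⟨a, ha, rfl⟩
    ⟨hneg, hfa.le⟩
  obtain ⟨y, hy, hy0⟩ := h1
  exact h0 y hy hy0

end Pool.Agent.Y152.EF
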