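import Pool.Agent.Y152.EF.Erf
import Pool.Agent.Y152.EF.Lift

/-!
# Three sheets of the inverse of the error function

Over the sheet `T ∪ W ∪ B` (top strip, window `W` over `(a, b)`, bottom strip) the inverse of `FF`
which is positive imaginary on the top strip has a continuous branch; the branches for the windows
`(-12, -2)`, `(-1, 1)` and `(2, 12)` agree on the top strip, and the middle one is different from the
two others at each point of the bottom strip.
-/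

set_option autoImplicit false

namespace Pool.Agent.Y152.EF

open Set Filter Topology

/-- an open rectangle -/
def box (a b c d : ℝ) : Set ℂ := {z | a < z.re ∧ z.re < b ∧ c < z.im ∧ z.im < d}

lemma isOpen_box (a b c d : ℝ) : IsOpen (box a b c d) := by
  have h : box a b c d = (Complex.re ⁻¹' Ioo a b) ∩ (Complex.im ⁻¹' Ioo c d) := by
    ext z
    simp only [box, mem_ofPred_eq, mem_inter_iff, mem_preimage, mem_Ioo]
    tauto
  rw [h]
  exact (isOpen_Ioo.preimage Complex.continuous_re).inter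
    (isOpen_Ioo.preimage Complex.continuous_im)

lemma convex_box (a b c d : ℝ) : Convex ℝ (box a b c d) := by
  have h : box a b c d = (Complex.reLm ⁻¹' Ioo a b) ∩ (Complex.imLm ⁻¹' Ioo c d) := by
    ext z
    simp only [box, mem_ofPred_eq, mem_inter_iff, mem_preimage, mem_Ioo, Complex.reLm_coe,
      Complex.imLm_coe]
    tauto
  rw [h]
  exact ((convex_Ioo a b).linear_preimage _).inter ((convex_Ioo c d).linear_preimage _)

lemma box_pre (a b c d : ℝ) : IsPreconnected (box a b c d) := (convex_box a b c d).isPreconnected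

lemma box_norm {a b c d : ℝ} {z : ℂ} (hz : z ∈ box a b c d) :
    ‖z‖ ≤ |a| + |b| + (|c| + |d|) := by
  obtain ⟨h1, h2, h3, h4⟩ := hz
  refine (Complex.norm_le_abs_re_add_abs_im z).trans (add_le_add ?_ ?_)
  · rw [abs_le]
    constructor
    · linarith [neg_abs_le a, abs_nonneg b]
    · linarith [le_abs_self b, abs_nonneg a]
  · rw [abs_le]
    constructor
    · linarith [neg_abs_le c, abs_nonneg d]
    · linarith [le_abs_self d, abs_nonneg c]

/-- far from the asymptotic values -/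
def Far (C : Set ℂ) : Prop := ∀ z ∈ C, 1 / 8000 ≤ ‖z - 3 / 2‖ ∧ 1 / 8000 ≤ ‖z + 3 / 2‖

lemma far_im {C : Set ℂ} (h : ∀ z ∈ C, 1 / 8000 ≤ |z.im|) : Far C := by
  intro z hz
  constructor
  · refine (h z hz).trans ?_
    have := Complex.abs_im_le_norm (z - 3 / 2)
    simpa using this
  · refine (h z hz).trans ?_
    have := Complex.abs_im_le_norm (z + 3 / 2)
    simpa using this

lemma far_re {C : Set ℂ} (h : ∀ z ∈ C, 1 / 2 ≤ |z.re - 3 / 2| ∧ 1 / 2 ≤ |z.re + 3 / 2|) :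
    Far C := by
  intro z hz
  obtain ⟨h1, h2⟩ := h z hz
  constructor
  · have := Complex.abs_re_le_norm (z - 3 / 2)
    have h3 : (z - 3 / 2).re = z.re - 3 / 2 := by norm_num
    rw [h3] at this
    linarith
  · have := Complex.abs_re_le_norm (z + 3 / 2)
    have h3 : (z + 3 / 2).re = z.re + 3 / 2 := by norm_num
    rw [h3] at this
    linarith

lemma hloc : IsLocalHomeomorph FF := isLocalHomeo FF_hasDerivAt dF_ne

/-- a branch over a rectangle -/
lemma box_section {a b c d : ℝ} (hfar : Far (box a b c d)) {z0 w0 : ℂ} (hz : z0 ∈ box a b c d)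
    (h0 : FF w0 = z0) : ∃ s : ℂ → ℂ, s z0 = w0 ∧ ContinuousOn s (box a b c d) ∧
      (∀ z ∈ box a b c d, FF (s z) = z) ∧ ∃ R : ℝ, ∀ z ∈ box a b c d, ‖s z‖ ≤ R := by
  have hb : ∀ w, FF w ∈ box a b c d → 1 / 8000 ≤ ‖dF w‖ := fun w hw =>
    est (hfar _ hw).1 (hfar _ hw).2
  obtain ⟨s, h1, h2, h3⟩ := exists_section FF_hasDerivAt dF_ne (convex_box a b c d) hz h0
    (ρ := 1 / 8000) (by norm_num) hb
  exact ⟨s, h1, h2, h3, sec_bound FF_hasDerivAt dF_ne (convex_box a b c d) (isOpen_box a b c d) h2 h3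
    (ρ := 1 / 8000) (by norm_num) hb (fun z hz => box_norm hz)⟩

/-- the top strip -/
def Tc : Set ℂ := box (-12) 12 (1 / 8000) (1 + 1 / 8000)

/-- the bottom strip -/
def Bc : Set ℂ := box (-12) 12 (-1 + 1 / 8000) (-(1 / 8000))

/-- the window -/
def Wc (a b : ℝ) : Set ℂ := box a b (-1 + 1 / 8000) (1 + 1 / 8000)

/-- the sheet -/
def Sc (a b : ℝ) : Set ℂ := Tc ∪ Bc ∪ Wc a b

lemma far_T : Far Tc := far_im fun z hz => by
  have h := hz.2.2.1
  rw [abs_of_pos (by linarith)]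
  exact h.le

lemma far_B : Far Bc := far_im fun z hz => by
  have h := hz.2.2.2
  rw [abs_of_neg (by linarith)]
  linarith

/-- a window away from the asymptotic values -/
def Win (a b : ℝ) : Prop := a < b ∧ -12 ≤ a ∧ b ≤ 12 ∧
  ∀ x, a < x → x < b → 1 / 2 ≤ |x - 3 / 2| ∧ 1 / 2 ≤ |x + 3 / 2|

lemma far_W {a b : ℝ} (h : Win a b) : Far (Wc a b) :=
  far_re fun z hz => h.2.2.2 _ hz.1 hz.2.1

/-- `s` is a bounded branch over `U` -/
def Branch (s : ℂ → ℂ) (U : Set ℂ) : Prop :=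
  ContinuousOn s U ∧ (∀ z ∈ U, FF (s z) = z) ∧ ∃ R : ℝ, ∀ z ∈ U, ‖s z‖ ≤ R

lemma Branch.mono {s : ℂ → ℂ} {U U' : Set ℂ} (h : Branch s U) (hU : U' ⊆ U) : Branch s U' := by
  obtain ⟨h1, h2, R, h3⟩ := h
  exact ⟨h1.mono hU, fun z hz => h2 z (hU hz), R, fun z hz => h3 z (hU hz)⟩

lemma Branch.congr {s s' : ℂ → ℂ} {U : Set ℂ} (h : Branch s U) (h' : EqOn s' s U) :
    Branch s' U := by
  obtain ⟨h1, h2, R, h3⟩ := h
  exact ⟨h1.congr h', fun z hz => by rw [h' hz, h2 z hz], R, fun z hz => by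
    rw [h' hz]
    exact h3 z hz⟩

lemma Branch.union {s : ℂ → ℂ} {U U' : Set ℂ} (hU : IsOpen U) (hU' : IsOpen U')
    (h : Branch s U) (h' : Branch s U') : Branch s (U ∪ U') := by
  obtain ⟨h1, h2, R, h3⟩ := h
  obtain ⟨h1', h2', R', h3'⟩ := h'
  refine ⟨h1.union_of_isOpen h1' hU hU', ?_, max R R', ?_⟩
  · rintro z (hz | hz)
    · exact h2 z hz
    · exact h2' z hz
  · rintro z (hz | hz)
    · exact (h3 z hz).trans (le_max_left _ _)
    · exact (h3' z hz).trans (le_max_right _ _)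

lemma Branch.unique {s s' : ℂ → ℂ} {U : Set ℂ} (hU : IsPreconnected U) (h : Branch s U)
    (h' : Branch s' U) {a : ℂ} (ha : a ∈ U) (hsa : s a = s' a) : EqOn s s' U :=
  sec_unique hloc hU h.1 h.2.1 h'.1 h'.2.1 ha hsa

lemma box_inter (a b c d a' b' c' d' : ℝ) : box a b c d ∩ box a' b' c' d' =
    box (max a a') (min b b') (max c c') (min d d') := by
  ext z
  simp only [box, mem_inter_iff, mem_ofPred_eq, max_lt_iff, lt_min_iff]
  tauto

lemma inter_pre (a b c d a' b' c' d' : ℝ) :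
    IsPreconnected (box a b c d ∩ box a' b' c' d') := by
  rw [box_inter]
  exact box_pre _ _ _ _

/-- the upper common point of window and top strip -/
noncomputable def up (a b : ℝ) : ℂ := ⟨(a + b) / 2, 1 / 2⟩

/-- the lower common point of window and bottom strip -/
noncomputable def lo (a b : ℝ) : ℂ := ⟨(a + b) / 2, -(1 / 2)⟩

lemma up_T {a b : ℝ} (h : Win a b) : up a b ∈ Tc := by
  obtain ⟨h1, h2, h3, -⟩ := h
  refine ⟨?_, ?_, ?_, ?_⟩ <;> simp only [up] <;> linarith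

lemma up_W {a b : ℝ} (h : Win a b) : up a b ∈ Wc a b := by
  obtain ⟨h1, h2, h3, -⟩ := h
  refine ⟨?_, ?_, ?_, ?_⟩ <;> simp only [up] <;> linarith

lemma lo_W {a b : ℝ} (h : Win a b) : lo a b ∈ Wc a b := by
  obtain ⟨h1, h2, h3, -⟩ := h
  refine ⟨?_, ?_, ?_, ?_⟩ <;> simp only [lo] <;> linarith

lemma lo_B {a b : ℝ} (h : Win a b) : lo a b ∈ Bc := by
  obtain ⟨h1, h2, h3, -⟩ := h
  refine ⟨?_, ?_, ?_, ?_⟩ <;> simp only [lo] <;> linarith

/-- branches over sheets -/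
lemma exists_sheet {a b : ℝ} (h : Win a b) {sT : ℂ → ℂ} (hT : Branch sT Tc) :
    ∃ s : ℂ → ℂ, Branch s (Sc a b) ∧ EqOn s sT Tc := by
  classical
  obtain ⟨sW, hWa, hW1, hW2, hW3⟩ := box_section (far_W h) (up_W h) (hT.2.1 _ (up_T h))
  have hW : Branch sW (Wc a b) := ⟨hW1, hW2, hW3⟩
  obtain ⟨sB, hBa, hB1, hB2, hB3⟩ := box_section far_B (lo_B h) (hW.2.1 _ (lo_W h))
  have hB : Branch sB Bc := ⟨hB1, hB2, hB3⟩
  have hTB : ∀ z ∈ Bc, z ∉ Tc := fun z hz hz' => by
    have h1 := hz.2.2.2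
    have h2 := hz'.2.2.1
    linarith
  let s : ℂ → ℂ := fun z => if z ∈ Tc then sT z else if z ∈ Bc then sB z else sW z
  have e1 : EqOn s sT Tc := fun z hz => by simp only [s, if_pos hz]
  have e2 : EqOn s sB Bc := fun z hz => by simp only [s, if_neg (hTB z hz), if_pos hz]
  have e3 : EqOn s sW (Wc a b) := by
    intro z hz
    have h1 : EqOn sT sW (Tc ∩ Wc a b) := Branch.unique (inter_pre _ _ _ _ _ _ _ _)
      (hT.mono inter_subset_left) (hW.mono inter_subset_right) ⟨up_T h, up_W h⟩ hWa.symm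
    have h2 : EqOn sB sW (Bc ∩ Wc a b) := Branch.unique (inter_pre _ _ _ _ _ _ _ _)
      (hB.mono inter_subset_left) (hW.mono inter_subset_right) ⟨lo_B h, lo_W h⟩ hBa
    by_cases hzT : z ∈ Tc
    · simp only [s, if_pos hzT]
      exact h1 ⟨hzT, hz⟩
    · by_cases hzB : z ∈ Bc
      · simp only [s, if_neg hzT, if_pos hzB]
        exact h2 ⟨hzB, hz⟩
      · simp only [s, if_neg hzT, if_neg hzB]
  refine ⟨s, ?_, e1⟩
  exact ((hT.congr e1).union (isOpen_box _ _ _ _) (isOpen_box _ _ _ _) (hB.congr e2)).union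
    ((isOpen_box _ _ _ _).union (isOpen_box _ _ _ _)) (isOpen_box _ _ _ _) (hW.congr e3)

lemma im_ne_of {s : ℂ → ℂ} {U : Set ℂ} (h : Branch s U) {z : ℂ} (hz : z ∈ U)
    (hz' : z.im ≠ 0 ∨ 3 / 2 < |z.re|) : (s z).im ≠ 0 := by
  intro h0
  have h1 : s z = (((s z).re : ℝ) : ℂ) := by
    apply Complex.ext
    · simp
    · simp [h0]
  have h2 := FF_real (s z).re
  rw [← h1, h.2.1 z hz] at h2
  rcases hz' with h3 | h3
  · exact h3 h2.1
  · linarith [h2.2]

lemma Sc_pre {a b : ℝ} (h : Win a b) : IsPreconnected (Sc a b) := by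
  have e : Sc a b = (Tc ∪ Wc a b) ∪ Bc := by
    unfold Sc
    rw [union_assoc, union_comm Bc, ← union_assoc]
  rw [e]
  refine IsPreconnected.union (lo a b) (Or.inr (lo_W h)) (lo_B h) ?_ (box_pre _ _ _ _)
  exact IsPreconnected.union (up a b) (up_T h) (up_W h) (box_pre _ _ _ _) (box_pre _ _ _ _)

/-- near the base point -/
lemma near_zero {s : ℂ → ℂ} {U : Set ℂ} (hU : IsOpen U) (h : Branch s U) (h0 : (0 : ℂ) ∈ U)
    (hs0 : s 0 = 0) : ∃ ε : ℝ, 0 < ε ∧ ε < 1 / 2 ∧ 0 < (s ⟨0, ε⟩).im ∧ (s ⟨0, -ε⟩).im < 0 := by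
  have hd := sec_deriv FF_hasDerivAt dF_ne hU h.1 h.2.1 h0
  have e : (dF (s 0))⁻¹ = ((cst⁻¹ : ℝ) : ℂ) := by
    rw [hs0]
    unfold dF
    simp
  rw [e] at hd
  have h1 : HasDerivAt (fun y : ℝ => (y : ℂ) * Complex.I) Complex.I 0 := by
    have := (Complex.ofRealCLM.hasDerivAt (x := (0 : ℝ))).mul_const Complex.I
    simpa using this
  have h2 : HasDerivAt (fun y : ℝ => s ((y : ℂ) * Complex.I)) (((cst⁻¹ : ℝ) : ℂ) * Complex.I) 0 := by
    have h3 : HasDerivAt s ((cst⁻¹ : ℝ) : ℂ) (((0 : ℝ) : ℂ) * Complex.I) := by simpa using hd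
    exact h3.comp (0 : ℝ) h1
  have h4 : HasDerivAt (fun y : ℝ => (s ((y : ℂ) * Complex.I)).im) cst⁻¹ 0 := by
    have h5 := (Complex.imCLM.hasFDerivAt (x := s (((0 : ℝ) : ℂ) * Complex.I))).comp_hasDerivAt
      (0 : ℝ) h2
    have h6 : Complex.imCLM (((cst⁻¹ : ℝ) : ℂ) * Complex.I) = cst⁻¹ := by simp
    rw [h6] at h5
    exact h5
  rw [hasDerivAt_iff_tendsto_slope] at h4
  have h5 := h4.eventually (lt_mem_nhds (inv_pos.2 cst_pos))
  rw [eventually_nhdsWithin_iff, Metric.eventually_nhds_iff] at h5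
  obtain ⟨δ, hδ, h6⟩ := h5
  set ε : ℝ := min (δ / 2) (1 / 4) with hε
  have hε0 : 0 < ε := lt_min (by positivity) (by norm_num)
  have hεδ : ε < δ := (min_le_left _ _).trans_lt (by linarith)
  have hε4 : ε ≤ 1 / 4 := min_le_right _ _
  have e2 : ∀ y : ℝ, (y : ℂ) * Complex.I = ⟨0, y⟩ := fun y => by
    apply Complex.ext <;> simp
  have hslope : ∀ y : ℝ, y ≠ 0 → |y| < δ → 0 < (s ⟨0, y⟩).im / y := by
    intro y hy hyδ
    have h7 := h6 (y := y) (by rw [dist_eq_norm, sub_zero]; exact hyδ) hy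
    rw [slope_def_field] at h7
    simp only [e2, sub_zero] at h7
    have e3 : ((⟨0, 0⟩ : ℂ)) = 0 := rfl
    rw [e3, hs0, Complex.zero_im, sub_zero] at h7
    exact h7
  refine ⟨ε, hε0, by linarith, ?_, ?_⟩
  · have h7 := hslope ε hε0.ne' (by rw [abs_of_pos hε0]; exact hεδ)
    exact (div_pos_iff_of_pos_right hε0).1 h7
  · have h7 := hslope (-ε) (by linarith) (by rw [abs_neg, abs_of_pos hε0]; exact hεδ)
    rcases div_pos_iff.1 h7 with ⟨h8, h9⟩ | ⟨h8, h9⟩
    · linarith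
    · exact h8

lemma win_left : Win (-12) (-2) := by
  refine ⟨by norm_num, by norm_num, by norm_num, fun x h1 h2 => ⟨?_, ?_⟩⟩
  · rw [abs_of_neg (by linarith)]
    linarith
  · rw [abs_of_neg (by linarith)]
    linarith

lemma win_mid : Win (-1) 1 := by
  refine ⟨by norm_num, by norm_num, by norm_num, fun x h1 h2 => ⟨?_, ?_⟩⟩
  · rw [abs_of_neg (by linarith)]
    linarith
  · rw [abs_of_pos (by linarith)]
    linarith

lemma win_right : Win 2 12 := by
  refine ⟨by norm_num, by norm_num, by norm_num, fun x h1 h2 => ⟨?_, ?_⟩⟩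
  · rw [abs_of_pos (by linarith)]
    linarith
  · rw [abs_of_pos (by linarith)]
    linarith

/-- the side sheets stay in the upper half plane -/
lemma side_pos {a b : ℝ} (h : Win a b) (hab : ∀ x, a < x → x < b → 3 / 2 < |x|) {s : ℂ → ℂ}
    (hs : Branch s (Sc a b)) (hT : ∀ z ∈ Tc, 0 < (s z).im) : ∀ z ∈ Bc, 0 < (s z).im := by
  intro z hz
  refine sign_const (Sc_pre h) (f := fun z => (s z).im)
    (Complex.continuous_im.comp_continuousOn hs.1) (fun y hy => im_ne_of hs hy ?_)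
    (Or.inl (Or.inl (up_T h))) (hT _ (up_T h)) z (Or.inl (Or.inr hz))
  rcases hy with (hy | hy) | hy
  · left
    have := hy.2.2.1
    linarith
  · left
    have := hy.2.2.2
    linarith
  · right
    exact hab _ hy.1 hy.2.1

/-- **The three sheets.** -/
theorem exists_sheets : ∃ sL s0 sR : ℂ → ℂ, Branch sL (Sc (-12) (-2)) ∧ Branch s0 (Sc (-1) 1) ∧
    Branch sR (Sc 2 12) ∧ EqOn s0 sL Tc ∧ EqOn s0 sR Tc ∧ (∀ z ∈ Bc, s0 z ≠ sL z) ∧
      ∀ z ∈ Bc, s0 z ≠ sR z := by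
  have h0W : (0 : ℂ) ∈ Wc (-1) 1 := by
    refine ⟨?_, ?_, ?_, ?_⟩ <;> simp only [Complex.zero_re, Complex.zero_im] <;> norm_num
  obtain ⟨sm, hm0, hm1, hm2, hm3⟩ := box_section (far_W win_mid) h0W FF_zero
  have hm : Branch sm (Wc (-1) 1) := ⟨hm1, hm2, hm3⟩
  obtain ⟨sT, hTa, hT1, hT2, hT3⟩ := box_section far_T (up_T win_mid) (hm.2.1 _ (up_W win_mid))
  have hT : Branch sT Tc := ⟨hT1, hT2, hT3⟩
  obtain ⟨s0, hs0, e0⟩ := exists_sheet win_mid hT
  obtain ⟨sL, hsL, eL⟩ := exists_sheet win_left hT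
  obtain ⟨sR, hsR, eR⟩ := exists_sheet win_right hT
  have em : EqOn s0 sm (Wc (-1) 1) := Branch.unique (box_pre _ _ _ _)
    (hs0.mono subset_union_right) hm (up_W win_mid) (by rw [e0 (up_T win_mid), hTa])
  obtain ⟨ε, hε0, hε1, hpos, hneg⟩ := near_zero (isOpen_box _ _ _ _) hm h0W hm0
  have hεW : (⟨0, ε⟩ : ℂ) ∈ Wc (-1) 1 := by
    refine ⟨?_, ?_, ?_, ?_⟩ <;> simp only <;> linarith
  have hεW' : (⟨0, -ε⟩ : ℂ) ∈ Wc (-1) 1 := by
    refine ⟨?_, ?_, ?_, ?_⟩ <;> simp only <;> linarith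
  rw [← em hεW] at hpos
  rw [← em hεW'] at hneg
  -- positive on the top strip
  have hTpos : ∀ z ∈ Tc, 0 < (s0 z).im := by
    have hpre : IsPreconnected (Tc ∪ box (-1) 1 0 (1 + 1 / 8000)) := by
      refine IsPreconnected.union (up (-1) 1) (up_T win_mid) ?_ (box_pre _ _ _ _)
        (box_pre _ _ _ _)
      refine ⟨?_, ?_, ?_, ?_⟩ <;> simp only [up] <;> norm_num
    have hsub : Tc ∪ box (-1) 1 0 (1 + 1 / 8000) ⊆ Sc (-1) 1 := by
      rintro z (hz | ⟨h1, h2, h3, h4⟩)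
      · exact Or.inl (Or.inl hz)
      · exact Or.inr ⟨h1, h2, by linarith, h4⟩
    intro z hz
    refine sign_const hpre (f := fun z => (s0 z).im)
      (Complex.continuous_im.comp_continuousOn (hs0.1.mono hsub))
      (fun y hy => im_ne_of hs0 (hsub hy) (Or.inl ?_)) (a := ⟨0, ε⟩) (Or.inr ?_) hpos z (Or.inl hz)
    · rcases hy with hy | hy
      · have := hy.2.2.1
        linarith
      · exact hy.2.2.1.ne'
    · refine ⟨?_, ?_, ?_, ?_⟩ <;> simp only <;> linarith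
  have hBneg : ∀ z ∈ Bc, (s0 z).im < 0 := by
    have hpre : IsPreconnected (Bc ∪ box (-1) 1 (-1 + 1 / 8000) 0) := by
      refine IsPreconnected.union (lo (-1) 1) (lo_B win_mid) ?_ (box_pre _ _ _ _)
        (box_pre _ _ _ _)
      refine ⟨?_, ?_, ?_, ?_⟩ <;> simp only [lo] <;> norm_num
    have hsub : Bc ∪ box (-1) 1 (-1 + 1 / 8000) 0 ⊆ Sc (-1) 1 := by
      rintro z (hz | ⟨h1, h2, h3, h4⟩)
      · exact Or.inl (Or.inr hz)
      · exact Or.inr ⟨h1, h2, h3, by linarith⟩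
    intro z hz
    have h1 := sign_const hpre (f := fun z => -(s0 z).im)
      (Complex.continuous_im.comp_continuousOn (hs0.1.mono hsub)).neg
      (fun y hy => neg_ne_zero.2 (im_ne_of hs0 (hsub hy) (Or.inl ?_))) (a := ⟨0, -ε⟩) (Or.inr ?_)
      (by linarith) z (Or.inl hz)
    · linarith
    · rcases hy with hy | hy
      · have := hy.2.2.2
        linarith
      · exact hy.2.2.2.ne
    · refine ⟨?_, ?_, ?_, ?_⟩ <;> simp only <;> linarith
  have hLpos := side_pos win_left (fun x h1 h2 => by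
    rw [abs_of_neg (by linarith)]
    linarith) hsL (fun z hz => by
      rw [eL hz, ← e0 hz]
      exact hTpos z hz)
  have hRpos := side_pos win_right (fun x h1 h2 => by
    rw [abs_of_pos (by linarith)]
    linarith) hsR (fun z hz => by
      rw [eR hz, ← e0 hz]
      exact hTpos z hz)
  refine ⟨sL, s0, sR, hsL, hs0, hsR, fun z hz => by rw [e0 hz, eL hz],
    fun z hz => by rw [e0 hz, eR hz], fun z hz h => ?_, fun z hz h => ?_⟩
  · have h1 := hBneg z hz
    have h2 := hLpos z hz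
    rw [← h] at h2
    linarith
  · have h1 := hBneg z hz
    have h2 := hRpos z hz
    rw [← h] at h2
    linarith

end Pool.Agent.Y152.EF
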